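import Pool.Agent.H96.JCT.Stmts

namespace Pool.JCT

open Complex Set Topology Filter

private theorem lfl_min (k : ℕ) (d : ℕ → ℝ) (hd : ∀ i, 0 < d i) :
    ∃ δ : ℝ, 0 < δ ∧ ∀ i < k, δ ≤ d i := by
  induction k with
  | zero => exact ⟨1, one_pos, fun i hi => absurd hi (Nat.not_lt_zero i)⟩
  | succ k ih =>
    obtain ⟨δ, h0, h1⟩ := ih
    refine ⟨min δ (d k), lt_min h0 (hd k), fun i hi => ?_⟩
    rcases Nat.lt_succ_iff_lt_or_eq.mp hi with h | h
    · exact (min_le_left _ _).trans (h1 i h)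
    · subst h
      exact min_le_right _ _

/-- One piece. -/
private theorem lfl_piece (hCPT : CPT_S) (hSID : SID_S) (hFL1 : FL1_S) (f : ℝ → Pl) (a b : ℝ)
    (h : ℝ → Pl) (r : ℝ) (C : ℕ) (hf : Continuous f) (hfi : InjOn f (Icc 0 1))
    (hsub : uIcc a b ⊆ Icc 0 1) (hh : Continuous h) (hhi : InjOn h (Icc 0 1))
    (hr : r ∈ Ioo (0 : ℝ) 1)
    (hC : (C = 0 ∧ Off f a b (h r)) ∨
      (C = 1 ∧ ∃ s, SBtw a b s ∧ f s = h r ∧
        Pool.MCR.ProperCrossing (f '' Icc 0 1) (h '' Icc 0 1) (h r))) :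
    ∃ D : ℤ, Even (D - (C : ℤ)) ∧ ∀ η : ℝ, 0 < η → ∃ δ : ℝ, 0 < δ ∧
      ∀ t u, r - δ < t → t < r → r < u → u < r + δ →
        Off f a b (h t) ∧ Off f a b (h u) ∧
          ‖inc f a b (h u) - inc f a b (h t) - D * tpi‖ < η := by
  rcases hC with ⟨hC0, hoff⟩ | ⟨hC1, s, hs, hfs, Φ, U, hU, hrU, hΦ, hax⟩
  · refine ⟨0, by simp [hC0], fun η hη => ?_⟩
    obtain ⟨h1, h2⟩ := hCPT f a b (h r) hf hoff
    have h3 : ∀ᶠ p in 𝓝 (h r), ‖inc f a b p - inc f a b (h r)‖ < η / 2 := by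
      have := (Metric.tendsto_nhds.mp h2) (η / 2) (by positivity)
      simpa [dist_eq_norm] using this
    have h4 : ∀ᶠ t in 𝓝 r, Off f a b (h t) ∧ ‖inc f a b (h t) - inc f a b (h r)‖ < η / 2 :=
      (hh.tendsto r).eventually (h1.and h3)
    obtain ⟨δ, hδ, h5⟩ := Metric.eventually_nhds_iff.mp h4
    refine ⟨δ, hδ, fun t u ht ht' hu hu' => ?_⟩
    have e1 : dist t r < δ := by
      rw [Real.dist_eq, abs_lt]; constructor <;> linarith
    have e2 : dist u r < δ := by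
      rw [Real.dist_eq, abs_lt]; constructor <;> linarith
    obtain ⟨a1, a2⟩ := h5 e1
    obtain ⟨b1, b2⟩ := h5 e2
    refine ⟨a1, b1, ?_⟩
    have e3 : inc f a b (h u) - inc f a b (h t) - ((0 : ℤ) : ℂ) * tpi =
        (inc f a b (h u) - inc f a b (h r)) - (inc f a b (h t) - inc f a b (h r)) := by
      push_cast; ring
    rw [e3]
    calc ‖(inc f a b (h u) - inc f a b (h r)) - (inc f a b (h t) - inc f a b (h r))‖
        ≤ ‖inc f a b (h u) - inc f a b (h r)‖ + ‖inc f a b (h t) - inc f a b (h r)‖ :=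
          norm_sub_le _ _
      _ < η := by linarith
  · have hfU : f s ∈ U := by rw [hfs]; exact hrU
    have hΦf : Φ (f s) = (0, 0) := by rw [hfs]; exact hΦ
    obtain ⟨D, hD, hD2⟩ := hFL1 Φ U f a b s hU hf hfi hsub hs hfU hΦf
      (fun q hq hqf => ((hax q hq).1).mp hqf)
    obtain ⟨δ0, hδ0, hside⟩ := hSID Φ U h r hU hh hhi hr hrU hΦ
      (fun q hq hqf => ((hax q hq).2).mp hqf)
    have hN : ∀ N ∈ 𝓝 (f s), ∃ δ : ℝ, 0 < δ ∧ ∀ t, r - δ < t → t < r + δ → h t ∈ N := by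
      intro N hN
      rw [hfs] at hN
      have h4 : ∀ᶠ t in 𝓝 r, h t ∈ N := (hh.tendsto r).eventually hN
      obtain ⟨δ, hδ, h5⟩ := Metric.eventually_nhds_iff.mp h4
      refine ⟨δ, hδ, fun t h1 h2 => h5 ?_⟩
      rw [Real.dist_eq, abs_lt]; constructor <;> linarith
    rcases hside with ⟨hl, hg⟩ | ⟨hl, hg⟩
    · refine ⟨D, ?_, fun η hη => ?_⟩
      · rcases hD with rfl | rfl
        · simp [hC1]
        · rw [hC1]; exact ⟨-1, by norm_num⟩
      · obtain ⟨N, hNn, hN2⟩ := hD2 η hη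
        obtain ⟨δ1, hδ1, hN3⟩ := hN N hNn
        refine ⟨min δ0 δ1, lt_min hδ0 hδ1, fun t u ht ht' hu hu' => ?_⟩
        have m0 : min δ0 δ1 ≤ δ0 := min_le_left _ _
        have m1 : min δ0 δ1 ≤ δ1 := min_le_right _ _
        obtain ⟨c1, c2, c3⟩ := hN2 (h u) (hN3 u (by linarith) (by linarith)) (h t)
          (hN3 t (by linarith) (by linarith)) (hg u hu (by linarith)) (hl t (by linarith) ht')
        exact ⟨c2, c1, c3⟩
    · refine ⟨-D, ?_, fun η hη => ?_⟩
      · rcases hD with rfl | rfl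
        · rw [hC1]; exact ⟨-1, by norm_num⟩
        · simp [hC1]
      · obtain ⟨N, hNn, hN2⟩ := hD2 η hη
        obtain ⟨δ1, hδ1, hN3⟩ := hN N hNn
        refine ⟨min δ0 δ1, lt_min hδ0 hδ1, fun t u ht ht' hu hu' => ?_⟩
        have m0 : min δ0 δ1 ≤ δ0 := min_le_left _ _
        have m1 : min δ0 δ1 ≤ δ1 := min_le_right _ _
        obtain ⟨c1, c2, c3⟩ := hN2 (h t) (hN3 t (by linarith) (by linarith)) (h u)
          (hN3 u (by linarith) (by linarith)) (hl t (by linarith) ht') (hg u hu (by linarith))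
        refine ⟨c1, c2, ?_⟩
        have e3 : inc f a b (h u) - inc f a b (h t) - ((-D : ℤ) : ℂ) * tpi =
            -(inc f a b (h t) - inc f a b (h u) - D * tpi) := by
          push_cast; ring
        rw [e3, norm_neg]
        exact c3

theorem lfl_thm (hCPT : CPT_S) (hSID : SID_S) (hFL1 : FL1_S) (hWIN : WIN_S) : LFL_S := by
  intro k f a b h r C hW hh hhi hr hC
  have hk : (0 : ℝ) < k := by exact_mod_cast hW.pos
  have key : ∀ i : ℕ, ∃ D : ℤ, ∃ δ : ℝ, 0 < δ ∧ (i < k → Even (D - (C i : ℤ)) ∧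
      ∀ t u, r - δ < t → t < r → r < u → u < r + δ →
        Off (f i) (a i) (b i) (h t) ∧ Off (f i) (a i) (b i) (h u) ∧
          ‖inc (f i) (a i) (b i) (h u) - inc (f i) (a i) (b i) (h t) - D * tpi‖ < 1 / k) := by
    intro i
    by_cases hi : i < k
    · obtain ⟨D, h1, h2⟩ := lfl_piece hCPT hSID hFL1 (f i) (a i) (b i) h r (C i) (hW.cont i hi)
        (hW.inj i hi) (hW.sub i hi) hh hhi hr (hC i hi)
      obtain ⟨δ, hδ, h3⟩ := h2 (1 / k) (by positivity)
      exact ⟨D, δ, hδ, fun _ => ⟨h1, h3⟩⟩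
    · exact ⟨0, 1, one_pos, fun h => absurd h hi⟩
  choose D d hd hk2 using key
  obtain ⟨δ, hδ, hδ2⟩ := lfl_min k d hd
  refine ⟨δ, hδ, fun t u ht ht' hu hu' => ?_⟩
  have hp : ∀ i < k, Off (f i) (a i) (b i) (h t) ∧ Off (f i) (a i) (b i) (h u) ∧
      ‖inc (f i) (a i) (b i) (h u) - inc (f i) (a i) (b i) (h t) - D i * tpi‖ < 1 / k := by
    intro i hi
    have := hδ2 i hi
    exact (hk2 i hi).2 t u (by linarith) ht' hu (by linarith)
  refine ⟨fun i hi => (hp i hi).1, fun i hi => (hp i hi).2.1, ?_⟩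
  obtain ⟨n1, hn1⟩ := hWIN k f a b (h u) hW (fun i hi => (hp i hi).2.1)
  obtain ⟨n2, hn2⟩ := hWIN k f a b (h t) hW (fun i hi => (hp i hi).1)
  have hsum : W k f a b (h u) - W k f a b (h t) -
      ((∑ i ∈ Finset.range k, D i : ℤ) : ℂ) * tpi =
      ∑ i ∈ Finset.range k,
        (inc (f i) (a i) (b i) (h u) - inc (f i) (a i) (b i) (h t) - D i * tpi) := by
    unfold W
    rw [Finset.sum_sub_distrib, Finset.sum_sub_distrib]
    congr 1
    push_cast
    rw [Finset.sum_mul]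
  have hne : (Finset.range k).Nonempty := ⟨0, Finset.mem_range.mpr hW.pos⟩
  have hlt : ‖W k f a b (h u) - W k f a b (h t) -
      ((∑ i ∈ Finset.range k, D i : ℤ) : ℂ) * tpi‖ < 1 := by
    rw [hsum]
    calc ‖∑ i ∈ Finset.range k,
          (inc (f i) (a i) (b i) (h u) - inc (f i) (a i) (b i) (h t) - D i * tpi)‖
        ≤ ∑ i ∈ Finset.range k,
          ‖inc (f i) (a i) (b i) (h u) - inc (f i) (a i) (b i) (h t) - D i * tpi‖ :=
          norm_sum_le _ _
      _ < ∑ i ∈ Finset.range k, (1 / (k : ℝ)) :=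
          Finset.sum_lt_sum_of_nonempty hne
            (fun i hi => (hp i (Finset.mem_range.mp hi)).2.2)
      _ = 1 := by
          rw [Finset.sum_const, Finset.card_range, nsmul_eq_mul]
          field_simp
  have hz : n1 - n2 - ∑ i ∈ Finset.range k, D i = 0 := by
    by_contra hne0
    have h1 : (1 : ℝ) ≤ |((n1 - n2 - ∑ i ∈ Finset.range k, D i : ℤ) : ℝ)| := by
      have := Int.one_le_abs hne0
      exact_mod_cast this
    have h2 : W k f a b (h u) - W k f a b (h t) -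
        ((∑ i ∈ Finset.range k, D i : ℤ) : ℂ) * tpi =
        ((n1 - n2 - ∑ i ∈ Finset.range k, D i : ℤ) : ℂ) * tpi := by
      rw [hn1, hn2]; push_cast; ring
    rw [h2, norm_mul] at hlt
    have h3 : ‖tpi‖ = 2 * Real.pi := by
      unfold tpi
      rw [norm_mul, norm_mul, Complex.norm_I, Complex.norm_real]
      simp [abs_of_pos Real.pi_pos]
    have h4 : ‖((n1 - n2 - ∑ i ∈ Finset.range k, D i : ℤ) : ℂ)‖ =
        |((n1 - n2 - ∑ i ∈ Finset.range k, D i : ℤ) : ℝ)| := by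
      rw [Complex.norm_intCast]
    rw [h3, h4] at hlt
    have h5 : (1 : ℝ) < 2 * Real.pi := by linarith [Real.pi_gt_three]
    nlinarith
  refine ⟨n1 - n2, ?_, ?_⟩
  · rw [hn1, hn2]; push_cast; ring
  · have h6 : n1 - n2 = ∑ i ∈ Finset.range k, D i := by linarith
    rw [h6]
    push_cast
    rw [← Finset.sum_sub_distrib]
    apply Finset.even_sum
    intro i hi
    exact (hk2 i (Finset.mem_range.mp hi)).1

end Pool.JCT
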